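import Pool.Agent.Q23.EG.Stm

/-!
# Project EG of helper23: job G (helper31)
-/

set_option autoImplicit false

namespace Pool.Agent.Q31.EG

open Pool.Agent.Q23.EG

theorem gap : S_gap := by
  intro s K₀ c N hs hK hc hN
  have hN0 : N ≠ 0 := by
    rintro rfl
    exact absurd hN (Nat.not_lt_zero _)
  obtain ⟨y, hy⟩ : ∃ y : ℕ → ℕ, y = fun i => K₀ ^ ((s + 1) * c) ^ i := ⟨_, rfl⟩
  have hpos : 1 ≤ (s + 1) * c := Nat.one_le_iff_ne_zero.mpr (by positivity)
  have hmono : Monotone y := by
    intro i j hij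
    rw [hy]
    exact Nat.pow_le_pow_right (by omega) (Nat.pow_le_pow_right (by omega) hij)
  have hyK : ∀ i, K₀ ≤ y i := by
    intro i
    have h0 := hmono (Nat.zero_le i)
    rw [hy] at h0 ⊢
    simpa using h0
  have hy1 : ∀ i, 1 ≤ y i := fun i => le_trans (by omega) (hyK i)
  have hstep : ∀ i, y i ^ ((s + 1) * c) = y (i + 1) := by
    intro i
    rw [hy]
    simp only
    rw [← pow_mul, ← pow_succ]
  have hex : ∃ i ∈ Finset.range (s + 1), ∀ ℓ ∈ N.primeFactors,
      ¬ (y i < ℓ ^ N.factorization ℓ ∧ ℓ ^ N.factorization ℓ ≤ y (i + 1)) := by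
    by_contra hcon
    push Not at hcon
    choose! g hg1 hg2 hg3 using hcon
    have hinj : Set.InjOn g (Finset.range (s + 1) : Set ℕ) := by
      intro i hi j hj hij
      have hi' : i ∈ Finset.range (s + 1) := hi
      have hj' : j ∈ Finset.range (s + 1) := hj
      rcases lt_trichotomy i j with h | h | h
      · exfalso
        have h1 := hg3 i hi'
        have h2 := hg2 j hj'
        rw [hij] at h1
        have h3 := hmono (show i + 1 ≤ j from h)
        omega
      · exact h
      · exfalso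
        have h1 := hg3 j hj'
        have h2 := hg2 i hi'
        rw [hij] at h2
        have h3 := hmono (show j + 1 ≤ i from h)
        omega
    have hcard := Finset.card_le_card_of_injOn g (s := Finset.range (s + 1))
      (t := N.primeFactors) (fun i hi => hg1 i hi) hinj
    rw [Finset.card_range] at hcard
    omega
  obtain ⟨i, hi, hgap⟩ := hex
  have hi' : i < s + 1 := Finset.mem_range.mp hi
  obtain ⟨A, hA⟩ : ∃ A, A = N.primeFactors.filter (fun ℓ => ℓ ^ N.factorization ℓ ≤ y i) :=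
    ⟨_, rfl⟩
  obtain ⟨B, hB⟩ : ∃ B, B = N.primeFactors.filter (fun ℓ => ¬ ℓ ^ N.factorization ℓ ≤ y i) :=
    ⟨_, rfl⟩
  have hprod : N = (∏ ℓ ∈ A, ℓ ^ N.factorization ℓ) * ∏ ℓ ∈ B, ℓ ^ N.factorization ℓ := by
    rw [hA, hB, Finset.prod_filter_mul_prod_filter_not]
    conv_lhs => rw [← Nat.prod_factorization_pow_eq_self hN0]
    rfl
  have hAp : ∀ ℓ ∈ A, ℓ.Prime := by
    intro ℓ h
    rw [hA] at h
    exact Nat.prime_of_mem_primeFactors (Finset.mem_filter.mp h).1
  have hBp : ∀ ℓ ∈ B, ℓ.Prime := by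
    intro ℓ h
    rw [hB] at h
    exact Nat.prime_of_mem_primeFactors (Finset.mem_filter.mp h).1
  have hcop : (∏ ℓ ∈ A, ℓ ^ N.factorization ℓ).Coprime (∏ ℓ ∈ B, ℓ ^ N.factorization ℓ) := by
    apply Nat.Coprime.prod_left
    intro p hp
    apply Nat.Coprime.prod_right
    intro l hl
    apply Nat.Coprime.pow
    rw [Nat.coprime_primes (hAp p hp) (hBp l hl)]
    rintro rfl
    rw [hA] at hp
    rw [hB] at hl
    exact (Finset.mem_filter.mp hl).2 (Finset.mem_filter.mp hp).2
  have hN1 : (∏ ℓ ∈ A, ℓ ^ N.factorization ℓ) ≤ y i ^ s := by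
    calc (∏ ℓ ∈ A, ℓ ^ N.factorization ℓ) ≤ ∏ _ℓ ∈ A, y i := by
          apply Finset.prod_le_prod'
          intro l hl
          rw [hA] at hl
          exact (Finset.mem_filter.mp hl).2
      _ = y i ^ A.card := by rw [Finset.prod_const]
      _ ≤ y i ^ s := by
          apply Nat.pow_le_pow_right (hy1 i)
          refine le_trans ?_ hs
          rw [hA]
          exact Finset.card_filter_le _ _
  refine ⟨∏ ℓ ∈ A, ℓ ^ N.factorization ℓ, ∏ ℓ ∈ B, ℓ ^ N.factorization ℓ, hprod, hcop, ?_, ?_⟩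
  · intro hQ
    rw [hQ, mul_one] at hprod
    have h1 : N ≤ y i ^ s := by
      calc N = _ := hprod
        _ ≤ y i ^ s := hN1
    have h2 : y i ^ s ≤ y (s + 1) ^ s := Nat.pow_le_pow_left (hmono (by omega)) s
    have h3 : y (s + 1) ^ s = K₀ ^ (s * ((s + 1) * c) ^ (s + 1)) := by
      rw [hy]
      simp only
      rw [← pow_mul, mul_comm s]
    omega
  · intro l hl hlQ
    have hlB : l ∈ B := by
      obtain ⟨p, hp, hlp⟩ := (Prime.dvd_finsetProd_iff hl.prime _).mp hlQ
      have h1 : l ∣ p := hl.dvd_of_dvd_pow hlp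
      have h2 : l = p := (Nat.prime_dvd_prime_iff_eq hl (hBp p hp)).mp h1
      rw [h2]
      exact hp
    have hlm := hlB
    rw [hB] at hlm
    obtain ⟨hl1, hl2⟩ := Finset.mem_filter.mp hlm
    have hlt : y i < l ^ N.factorization l := not_le.mp hl2
    have hlt2 : y (i + 1) < l ^ N.factorization l := by
      by_contra hle
      exact hgap l hl1 ⟨hlt, not_lt.mp hle⟩
    have hnd : ¬ l ∣ ∏ ℓ ∈ A, ℓ ^ N.factorization ℓ := by
      intro h
      have h3 := Nat.dvd_gcd h hlQ
      rw [hcop] at h3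
      exact hl.one_lt.ne' (Nat.dvd_one.mp h3)
    have hfac : (∏ ℓ ∈ B, ℓ ^ N.factorization ℓ).factorization l = N.factorization l := by
      have h4 : N.factorization l = (∏ ℓ ∈ A, ℓ ^ N.factorization ℓ).factorization l +
          (∏ ℓ ∈ B, ℓ ^ N.factorization ℓ).factorization l := by
        have h5 := congrArg (fun n => Nat.factorization n l) hprod
        rw [Nat.factorization_mul_apply_of_coprime hcop] at h5
        exact h5
      rw [Nat.factorization_eq_zero_of_not_dvd hnd] at h4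
      omega
    rw [hfac]
    refine lt_of_le_of_lt ?_ hlt2
    calc (K₀ * ∏ ℓ ∈ A, ℓ ^ N.factorization ℓ) ^ c ≤ (y i * y i ^ s) ^ c :=
          Nat.pow_le_pow_left (Nat.mul_le_mul (hyK i) hN1) c
      _ = y i ^ ((s + 1) * c) := by
          rw [← pow_succ', ← pow_mul]
      _ = y (i + 1) := hstep i

end Pool.Agent.Q31.EG
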